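import Pool.Agent.helper75.LC.Spec

/-!
# Project lc (MP_8aef6e_al), row QTA: lifting pairs through a quotient
-/

set_option autoImplicit false

namespace Pool.Agent.LC

open MX MG

/-- a `p`-element of a quotient is the image of a `p`-element -/
private lemma QTA_lift {H Hq : Type} [Group H] [Group Hq] [Finite H] (p : ℕ) [Fact p.Prime] (q : H →* Hq)
    (hq : Function.Surjective q) (y : Hq) (hy : ∃ k : ℕ, y ^ (p ^ k) = 1) :
    ∃ h : H, q h = y ∧ ∃ k : ℕ, h ^ (p ^ k) = 1 := by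
  obtain ⟨k, hk⟩ := hy
  obtain ⟨h₀, rfl⟩ := hq y
  have hp : p.Prime := Fact.out
  obtain ⟨e, n, hn, hN⟩ := Nat.exists_eq_pow_mul_and_not_dvd (orderOf_pos h₀).ne' p hp.ne_one
  have hk' : q h₀ ^ (p ^ (k + 1)) = 1 := by
    rw [pow_succ, pow_mul, hk, one_pow]
  have hcop : n.Coprime (p ^ (k + 1)) := by
    refine Nat.Coprime.pow_right _ ?_
    exact ((Nat.Prime.coprime_iff_not_dvd hp).2 hn).symm
  obtain ⟨m, -, hm⟩ := Nat.exists_mul_mod_eq_one_of_coprime hcop
    (Nat.one_lt_pow (Nat.succ_ne_zero k) hp.one_lt)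
  refine ⟨h₀ ^ (n * m), ?_, e, ?_⟩
  · rw [map_pow]
    have h1 : n * m = p ^ (k + 1) * (n * m / p ^ (k + 1)) + 1 := by
      have := Nat.div_add_mod (n * m) (p ^ (k + 1))
      rw [hm] at this
      exact this.symm
    rw [h1, pow_add, pow_mul, hk', one_pow, one_mul, pow_one]
  · rw [← pow_mul]
    have h1 : n * m * p ^ e = orderOf h₀ * m := by
      rw [hN]
      ring
    rw [h1, pow_mul, pow_orderOf_eq_one, one_pow]

theorem QTA : QTA_stmt := by
  intro H Hq V _ _ _ _ _ _ p _ q hq hact n hB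
  obtain ⟨f, hf1, hf2, hf3⟩ := hB
  choose h hh1 hh2 using fun i => QTA_lift p q hq (f i).2 (hf2 i)
  have hcm : ∀ (x : H) (v : V), v ∈ cmm H V x ↔ v ∈ cmm Hq V (q x) := by
    intro x v
    constructor
    · rintro ⟨u, rfl⟩
      exact ⟨u, by rw [hact]⟩
    · rintro ⟨u, rfl⟩
      exact ⟨u, by rw [hact]⟩
  refine ⟨fun i => ((f i).1, h i), ?_, hh2, ?_⟩
  · intro i hi
    have h1 := (hcm (h i) (f i).1).1 hi
    rw [hh1] at h1
    exact hf1 i h1
  · rintro i j ⟨a, m, hm, h1, h2⟩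
    refine hf3 i j ⟨q a, m, hm, ?_, ?_⟩
    · have h3 := congrArg q h1
      rw [map_mul, map_mul, map_pow, map_inv] at h3
      change q (h j) = q a * q (h i) ^ m * (q a)⁻¹ at h3
      rw [hh1, hh1] at h3
      exact h3
    · have h4 := (hcm (h j) ((f j).1 - m • (a • (f i).1))).1 h2
      rw [hh1, hact] at h4
      exact h4

end Pool.Agent.LC
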